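import Pool.Agent.Y214.CY.Stm

/-!
# Bounds of the coefficients of a sorted anisotropic cubic form
-/

set_option autoImplicit false

namespace Pool.Agent.Y442.CY

open Pool.Agent.Y214.CY

theorem sum3 {n : ℕ} {M : Type} [AddCommMonoid M] {i j k : Fin n} (hij : i ≠ j) (hik : i ≠ k)
    (hjk : j ≠ k) (g : Fin n → M) (h : ∀ a, a ≠ i → a ≠ j → a ≠ k → g a = 0) :
    ∑ a, g a = g i + g j + g k := by
  rw [← Finset.sum_subset (Finset.subset_univ ({i, j, k} : Finset (Fin n)))]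
  · rw [Finset.sum_insert, Finset.sum_insert, Finset.sum_singleton, add_assoc]
    · simpa using hjk
    · simp [hij, hik]
  · intro a _ ha
    simp only [Finset.mem_insert, Finset.mem_singleton, not_or] at ha
    exact h a ha.1 ha.2.1 ha.2.2

/-- the vector with the coordinates `α`, `β`, `γ` at `i`, `j`, `k` -/
def Y {n : ℕ} {R : Type} [Zero R] (i j k : Fin n) (α β γ : R) : Fin n → R := fun a =>
  if a = i then α else if a = j then β else if a = k then γ else 0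

section
variable {n : ℕ} {R : Type} [CommRing R] {i j k : Fin n}

theorem Y_i (α β γ : R) : Y i j k α β γ i = α := by simp [Y]

theorem Y_j (hij : i ≠ j) (α β γ : R) : Y i j k α β γ j = β := by simp [Y, hij.symm]

theorem Y_k (hik : i ≠ k) (hjk : j ≠ k) (α β γ : R) : Y i j k α β γ k = γ := by
  simp [Y, hik.symm, hjk.symm]

theorem Y_not {a : Fin n} (h1 : a ≠ i) (h2 : a ≠ j) (h3 : a ≠ k) (α β γ : R) :
    Y i j k α β γ a = 0 := by
  simp [Y, h1, h2, h3]

theorem Y_add (α β γ α' β' γ' : R) :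
    Y i j k α β γ + Y i j k α' β' γ' = Y i j k (α + α') (β + β') (γ + γ') := by
  funext a
  simp only [Y, Pi.add_apply]
  split_ifs <;> simp

theorem cubY (hij : i < j) (hjk : j < k) (t : Fin n → Fin n → Fin n → R)
    (ht : ∀ i j k, ¬ (i ≤ j ∧ j ≤ k) → t i j k = 0) (α β γ : R) :
    cub t (Y i j k α β γ) = t i i i * α ^ 3 + t j j j * β ^ 3 + t k k k * γ ^ 3 +
      t i i j * α ^ 2 * β + t i i k * α ^ 2 * γ + t i j j * α * β ^ 2 + t i k k * α * γ ^ 2 +
      t j j k * β ^ 2 * γ + t j k k * β * γ ^ 2 + t i j k * α * β * γ := by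
  have hik := hij.trans hjk
  have z : ∀ a, a ≠ i → a ≠ j → a ≠ k → Y i j k α β γ a = 0 :=
    fun a h1 h2 h3 => Y_not h1 h2 h3 α β γ
  have e : ∀ g : Fin n → R, (∀ a, a ≠ i → a ≠ j → a ≠ k → g a = 0) →
      ∑ a, g a = g i + g j + g k := fun g h => sum3 hij.ne hik.ne hjk.ne g h
  unfold cub
  rw [e _ (fun a h1 h2 h3 => by simp [z a h1 h2 h3])]
  rw [e _ (fun a h1 h2 h3 => by simp [z a h1 h2 h3]),
    e _ (fun a h1 h2 h3 => by simp [z a h1 h2 h3]),
    e _ (fun a h1 h2 h3 => by simp [z a h1 h2 h3])]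
  rw [e _ (fun a h1 h2 h3 => by simp [z a h1 h2 h3]),
    e _ (fun a h1 h2 h3 => by simp [z a h1 h2 h3]),
    e _ (fun a h1 h2 h3 => by simp [z a h1 h2 h3]),
    e _ (fun a h1 h2 h3 => by simp [z a h1 h2 h3]),
    e _ (fun a h1 h2 h3 => by simp [z a h1 h2 h3]),
    e _ (fun a h1 h2 h3 => by simp [z a h1 h2 h3]),
    e _ (fun a h1 h2 h3 => by simp [z a h1 h2 h3]),
    e _ (fun a h1 h2 h3 => by simp [z a h1 h2 h3]),
    e _ (fun a h1 h2 h3 => by simp [z a h1 h2 h3])]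
  have q : ∀ a b c : Fin n, b < a ∨ c < b → t a b c = 0 := by
    intro a b c h
    apply ht
    rintro ⟨h1, h2⟩
    rcases h with h | h
    · exact absurd h1 (not_le.2 h)
    · exact absurd h2 (not_le.2 h)
  rw [q i j i (Or.inr hij), q i k i (Or.inr hik), q i k j (Or.inr hjk), q j i i (Or.inl hij),
    q j i j (Or.inl hij), q j i k (Or.inl hij), q j j i (Or.inr hij), q j k i (Or.inr hik),
    q j k j (Or.inr hjk), q k i i (Or.inl hik), q k i j (Or.inl hik), q k i k (Or.inl hik),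
    q k j i (Or.inl hjk), q k j j (Or.inl hjk), q k j k (Or.inl hjk), q k k i (Or.inr hik),
    q k k j (Or.inr hjk)]
  rw [Y_i, Y_j hij.ne, Y_k hik.ne hjk.ne]
  simp only [Algebra.algebraMap_self, RingHom.id_apply]
  ring

end

theorem Y_ne {n : ℕ} {R : Type} [CommRing R] {i j k : Fin n} (hij : i ≠ j) (hik : i ≠ k)
    (hjk : j ≠ k) {α β γ : R} (h : α ≠ 0 ∨ β ≠ 0 ∨ γ ≠ 0) : Y i j k α β γ ≠ 0 := by
  intro h0
  rcases h with h | h | h
  · exact h (by rw [← Y_i (i := i) (j := j) (k := k) α β γ, h0]; rfl)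
  · exact h (by rw [← Y_j (k := k) hij α β γ, h0]; rfl)
  · exact h (by rw [← Y_k hik hjk α β γ, h0]; rfl)

/-! ### two indices -/

theorem sum2 {n : ℕ} {M : Type} [AddCommMonoid M] {i j : Fin n} (hij : i ≠ j)
    (g : Fin n → M) (h : ∀ a, a ≠ i → a ≠ j → g a = 0) :
    ∑ a, g a = g i + g j := by
  rw [← Finset.sum_subset (Finset.subset_univ ({i, j} : Finset (Fin n)))]
  · rw [Finset.sum_insert, Finset.sum_singleton]
    simpa using hij
  · intro a _ ha
    simp only [Finset.mem_insert, Finset.mem_singleton, not_or] at ha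
    exact h a ha.1 ha.2

/-- the vector with the coordinates `α`, `β` at `i`, `j` -/
def Z {n : ℕ} {R : Type} [Zero R] (i j : Fin n) (α β : R) : Fin n → R := fun a =>
  if a = i then α else if a = j then β else 0

section
variable {n : ℕ} {R : Type} [CommRing R] {i j : Fin n}

theorem Z_i (α β : R) : Z i j α β i = α := by simp [Z]

theorem Z_j (hij : i ≠ j) (α β : R) : Z i j α β j = β := by simp [Z, hij.symm]

theorem Z_not {a : Fin n} (h1 : a ≠ i) (h2 : a ≠ j) (α β : R) :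
    Z i j α β a = 0 := by
  simp [Z, h1, h2]

theorem Z_ne (hij : i ≠ j) {α β : R} (h : α ≠ 0 ∨ β ≠ 0) : Z i j α β ≠ 0 := by
  intro h0
  rcases h with h | h
  · exact h (by rw [← Z_i (i := i) (j := j) α β, h0]; rfl)
  · exact h (by rw [← Z_j hij α β, h0]; rfl)

theorem cubZ (hij : i < j) (t : Fin n → Fin n → Fin n → R)
    (ht : ∀ i j k, ¬ (i ≤ j ∧ j ≤ k) → t i j k = 0) (α β : R) :
    cub t (Z i j α β) = t i i i * α ^ 3 + t i i j * α ^ 2 * β + t i j j * α * β ^ 2 +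
      t j j j * β ^ 3 := by
  have z : ∀ a, a ≠ i → a ≠ j → Z i j α β a = 0 :=
    fun a h1 h2 => Z_not h1 h2 α β
  have e : ∀ g : Fin n → R, (∀ a, a ≠ i → a ≠ j → g a = 0) →
      ∑ a, g a = g i + g j := fun g h => sum2 hij.ne g h
  unfold cub
  rw [e _ (fun a h1 h2 => by simp [z a h1 h2])]
  rw [e _ (fun a h1 h2 => by simp [z a h1 h2]),
    e _ (fun a h1 h2 => by simp [z a h1 h2])]
  rw [e _ (fun a h1 h2 => by simp [z a h1 h2]),
    e _ (fun a h1 h2 => by simp [z a h1 h2]),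
    e _ (fun a h1 h2 => by simp [z a h1 h2]),
    e _ (fun a h1 h2 => by simp [z a h1 h2])]
  have q : ∀ a b c : Fin n, b < a ∨ c < b → t a b c = 0 := by
    intro a b c h
    apply ht
    rintro ⟨h1, h2⟩
    rcases h with h | h
    · exact absurd h1 (not_le.2 h)
    · exact absurd h2 (not_le.2 h)
  rw [q i j i (Or.inr hij), q j i i (Or.inl hij), q j i j (Or.inl hij), q j j i (Or.inr hij)]
  rw [Z_i, Z_j hij.ne]
  simp only [Algebra.algebraMap_self, RingHom.id_apply]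
  ring

end

/-! ### exponents -/

theorem num {a b c : ℕ} (ha : a ≤ 2) (hb : b ≤ 2) (hc : c ≤ 2) {v : ℤ}
    (h1 : -(3 * v) ≤ 2 * max (-(a : ℤ)) (-(c : ℤ)) - b)
    (h2 : -(3 * v) ≤ 2 * max (-(a : ℤ)) (-(b : ℤ)) - c)
    (h3 : -(3 * v) ≤ 2 * max (-(b : ℤ)) (-(c : ℤ)) - a) :
    -(3 * v) ≤ -(a : ℤ) - b - c := by
  interval_cases a <;> interval_cases b <;> interval_cases c <;> norm_num at * <;> omega

theorem expo {p : ℕ} (hp : 1 < p) {a b c : ℕ} {v : ℤ}
    (h : ((p : ℝ) ^ (-v)) ^ 3 ≤ (max ((p : ℝ) ^ a)⁻¹ ((p : ℝ) ^ c)⁻¹) ^ 2 * ((p : ℝ) ^ b)⁻¹) :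
    -(3 * v) ≤ 2 * max (-(a : ℤ)) (-(c : ℤ)) - b := by
  have hp1 : (1 : ℝ) < p := by exact_mod_cast hp
  have hp0 : (p : ℝ) ≠ 0 := by positivity
  have e : ∀ m : ℕ, ((p : ℝ) ^ m)⁻¹ = (p : ℝ) ^ (-(m : ℤ)) := by
    intro m
    rw [zpow_neg, zpow_natCast]
  have hm : max ((p : ℝ) ^ (-(a : ℤ))) ((p : ℝ) ^ (-(c : ℤ))) =
      (p : ℝ) ^ (max (-(a : ℤ)) (-(c : ℤ))) :=
    ((zpow_right_mono₀ hp1.le).map_max).symm
  rw [e, e, e, hm, ← zpow_natCast, ← zpow_natCast, ← zpow_mul, ← zpow_mul, ← zpow_add₀ hp0,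
    zpow_le_zpow_iff_right₀ hp1] at h
  push_cast at h
  linarith

/-! ### the theorem -/

theorem ult3 {p : ℕ} [Fact p.Prime] {x y z : ℚ_[p]} {M : ℝ} (hx : ‖x‖ ^ 3 ≤ M)
    (hy : ‖y‖ ^ 3 ≤ M) (hz : ‖z‖ ^ 3 ≤ M) : ‖x - y - z‖ ^ 3 ≤ M := by
  have h1 : ‖x - y - z‖ ≤ max (max ‖x‖ ‖y‖) ‖z‖ := by
    rw [sub_eq_add_neg, sub_eq_add_neg]
    refine (Padic.nonarchimedean _ _).trans (max_le_max ?_ (norm_neg z).le)
    exact (Padic.nonarchimedean _ _).trans (max_le_max le_rfl (norm_neg y).le)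
  have h2 : ‖x - y - z‖ ^ 3 ≤ (max (max ‖x‖ ‖y‖) ‖z‖) ^ 3 := by gcongr
  refine h2.trans ?_
  rcases max_choice (max ‖x‖ ‖y‖) ‖z‖ with h | h
  · rw [h]
    rcases max_choice ‖x‖ ‖y‖ with h' | h'
    · rwa [h']
    · rwa [h']
  · rwa [h]

/-- one of the three bounds -/
theorem one {p : ℕ} [Fact p.Prime] {A B C D b1 b2 : ℚ_[p]} {a c : ℝ} (hm : ‖A‖ ≤ max a c)
    (ha : 0 ≤ a) (hc : 0 ≤ c)
    (h : ‖B‖ ^ 3 ≤ ‖A‖ ^ 2 * ‖D‖ ∧ ‖C‖ ^ 3 ≤ ‖A‖ * ‖D‖ ^ 2) (h1 : ‖b1‖ ^ 3 ≤ a ^ 2 * ‖D‖)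
    (h2 : ‖b2‖ ^ 3 ≤ c ^ 2 * ‖D‖) : ‖B - b1 - b2‖ ^ 3 ≤ (max a c) ^ 2 * ‖D‖ := by
  have hD := norm_nonneg D
  apply ult3
  · refine h.1.trans ?_
    gcongr
  · refine h1.trans ?_
    gcongr
    exact le_max_left _ _
  · refine h2.trans ?_
    gcongr
    exact le_max_right _ _

theorem t_COEF (h1 : S_BL) (h2 : S_ULT) : S_COEF := by
  intro p hp n t hA ht hρ
  have P2 : ∀ i j, i < j → ‖t i i j‖ ^ 3 ≤ ‖t i i i‖ ^ 2 * ‖t j j j‖ ∧
      ‖t i j j‖ ^ 3 ≤ ‖t i i i‖ * ‖t j j j‖ ^ 2 := by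
    intro i j hij
    refine h1 p (t i i i) (t i i j) (t i j j) (t j j j) fun s r hsr => ?_
    rw [← cubZ hij t ht]
    exact hA _ (Z_ne hij.ne hsr)
  have P3 : ∀ i j k, i < j → j < k → ‖t i j k‖ ^ 3 ≤ ‖t i i i‖ * ‖t j j j‖ * ‖t k k k‖ := by
    intro i j k hij hjk
    have hik := hij.trans hjk
    have ei : cub t (Y i j k 1 0 0) = t i i i := by rw [cubY hij hjk t ht]; ring
    have ej : cub t (Y i j k 0 1 0) = t j j j := by rw [cubY hij hjk t ht]; ring
    have ek : cub t (Y i j k 0 0 1) = t k k k := by rw [cubY hij hjk t ht]; ring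
    -- first
    have a1 : ‖t i j k‖ ^ 3 ≤ (max ‖t i i i‖ ‖t k k k‖) ^ 2 * ‖t j j j‖ := by
      have m : ‖cub t (Y i j k (1 : ℚ_[p]) 0 1)‖ ≤ max ‖t i i i‖ ‖t k k k‖ := by
        have := h2 p n t hA (Y i j k 1 0 0) (Y i j k 0 0 1)
        simpa only [Y_add, ei, ek, add_zero, zero_add] using this
      have b := h1 p (cub t (Y i j k 1 0 1)) (t i i j + t j k k + t i j k)
        (t i j j + t j j k) (t j j j) fun s r hsr => by
          have e : cub t (Y i j k 1 0 1) * s ^ 3 + (t i i j + t j k k + t i j k) * s ^ 2 * r +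
              (t i j j + t j j k) * s * r ^ 2 + t j j j * r ^ 3 = cub t (Y i j k s r s) := by
            rw [cubY hij hjk t ht, cubY hij hjk t ht]
            ring
          rw [e]
          exact hA _ (Y_ne hij.ne hik.ne hjk.ne (by tauto))
      have := one m (norm_nonneg _) (norm_nonneg _) b (b1 := t i i j) (b2 := t j k k)
        (P2 i j hij).1 (by rw [mul_comm]; exact (P2 j k hjk).2)
      have e : t i i j + t j k k + t i j k - t i i j - t j k k = t i j k := by ring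
      rwa [e] at this
    have a2 : ‖t i j k‖ ^ 3 ≤ (max ‖t i i i‖ ‖t j j j‖) ^ 2 * ‖t k k k‖ := by
      have m : ‖cub t (Y i j k (1 : ℚ_[p]) 1 0)‖ ≤ max ‖t i i i‖ ‖t j j j‖ := by
        have := h2 p n t hA (Y i j k 1 0 0) (Y i j k 0 1 0)
        simpa only [Y_add, ei, ej, add_zero, zero_add] using this
      have b := h1 p (cub t (Y i j k 1 1 0)) (t i i k + t j j k + t i j k)
        (t i k k + t j k k) (t k k k) fun s r hsr => by
          have e : cub t (Y i j k 1 1 0) * s ^ 3 + (t i i k + t j j k + t i j k) * s ^ 2 * r +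
              (t i k k + t j k k) * s * r ^ 2 + t k k k * r ^ 3 = cub t (Y i j k s s r) := by
            rw [cubY hij hjk t ht, cubY hij hjk t ht]
            ring
          rw [e]
          exact hA _ (Y_ne hij.ne hik.ne hjk.ne (by tauto))
      have := one m (norm_nonneg _) (norm_nonneg _) b (b1 := t i i k) (b2 := t j j k)
        (P2 i k hik).1 (P2 j k hjk).1
      have e : t i i k + t j j k + t i j k - t i i k - t j j k = t i j k := by ring
      rwa [e] at this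
    have a3 : ‖t i j k‖ ^ 3 ≤ (max ‖t j j j‖ ‖t k k k‖) ^ 2 * ‖t i i i‖ := by
      have m : ‖cub t (Y i j k (0 : ℚ_[p]) 1 1)‖ ≤ max ‖t j j j‖ ‖t k k k‖ := by
        have := h2 p n t hA (Y i j k 0 1 0) (Y i j k 0 0 1)
        simpa only [Y_add, ej, ek, add_zero, zero_add] using this
      have b := h1 p (cub t (Y i j k 0 1 1)) (t i j j + t i k k + t i j k)
        (t i i j + t i i k) (t i i i) fun s r hsr => by
          have e : cub t (Y i j k 0 1 1) * s ^ 3 + (t i j j + t i k k + t i j k) * s ^ 2 * r +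
              (t i i j + t i i k) * s * r ^ 2 + t i i i * r ^ 3 = cub t (Y i j k r s s) := by
            rw [cubY hij hjk t ht, cubY hij hjk t ht]
            ring
          rw [e]
          exact hA _ (Y_ne hij.ne hik.ne hjk.ne (by tauto))
      have := one m (norm_nonneg _) (norm_nonneg _) b (b1 := t i j j) (b2 := t i k k)
        (by rw [mul_comm]; exact (P2 i j hij).2) (by rw [mul_comm]; exact (P2 i k hik).2)
      have e : t i j j + t i k k + t i j k - t i j j - t i k k = t i j k := by ring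
      rwa [e] at this
    obtain ⟨a, ha, ra⟩ := hρ i
    obtain ⟨b, hb, rb⟩ := hρ j
    obtain ⟨c, hc, rc⟩ := hρ k
    by_cases h0 : t i j k = 0
    · rw [h0, norm_zero, zero_pow (by norm_num)]
      positivity
    have hp1 : 1 < p := hp.out.one_lt
    have hv := Padic.norm_eq_zpow_neg_valuation h0
    rw [hv, ra, rc, rb] at a1
    rw [hv, ra, rc, rb] at a2
    rw [hv, ra, rc, rb] at a3
    have n1 := expo hp1 a1
    have n2 := expo hp1 a2
    have n3 := expo hp1 a3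
    have n4 := num ha hb hc n1 n2 n3
    have hpr : (1 : ℝ) < p := by exact_mod_cast hp1
    have hp0 : (p : ℝ) ≠ 0 := by positivity
    have e : ∀ m : ℕ, ((p : ℝ) ^ m)⁻¹ = (p : ℝ) ^ (-(m : ℤ)) := by
      intro m
      rw [zpow_neg, zpow_natCast]
    rw [hv, ra, rb, rc, e, e, e, ← zpow_natCast, ← zpow_mul, ← zpow_add₀ hp0, ← zpow_add₀ hp0,
      zpow_le_zpow_iff_right₀ hpr]
    push_cast
    linarith
  intro i j k
  by_cases hs : i ≤ j ∧ j ≤ k
  · rcases hs.1.lt_or_eq with h | h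
    · rcases hs.2.lt_or_eq with h' | h'
      · exact P3 i j k h h'
      · subst h'
        refine (P2 i j h).2.trans (le_of_eq (by ring))
    · subst h
      rcases hs.2.lt_or_eq with h' | h'
      · refine (P2 i k h').1.trans (le_of_eq (by ring))
      · subst h'
        exact le_of_eq (by ring)
  · rw [ht i j k hs, norm_zero, zero_pow (by norm_num)]
    positivity

end Pool.Agent.Y442.CY
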